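import Pool.Agent.N561.EK.Stm

/-!
# EK/5: the inequality at an edge

On the flat parts of the two paths the real part of the potential is strictly concave (the Hessian
is negative definite), on the vertical parts it is convex (second derivative in the imaginary
direction), so the slack of the tangent plane inequality is concave there, and it is enough to know
it at the ends (EK/4) and at the corners.
-/

set_option autoImplicit false

namespace Pool.Agent.N27.EK.Edg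

open Filter Topology
open Pool.Agent.N561 (sg)
open Pool.Agent.N561.EK (DD D0 PP CO tg s1 s2 rr POT HES COR S_EDG)
open scoped Real

/-! ### The domain -/

theorem DD_open : IsOpen DD := by
  apply IsOpen.inter
  · exact isOpen_lt (Complex.continuous_re.abs) continuous_const
  · exact isOpen_lt (Complex.continuous_im.abs) continuous_const

theorem DD_ev {p : ℂ × ℂ} (h1 : p.1 ∈ DD) (h2 : p.2 ∈ DD) :
    ∀ᶠ q : ℂ × ℂ in 𝓝 p, q.1 ∈ DD ∧ q.2 ∈ DD := by
  have h : DD ×ˢ DD ∈ 𝓝 p := (DD_open.prod DD_open).mem_nhds ⟨h1, h2⟩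
  filter_upwards [h] with q hq using hq

theorem DD_seg {a : ℂ} {u t : ℝ} (ha : a ∈ DD) (hau : a + (u : ℂ) ∈ DD)
    (ht : t ∈ Set.Icc (0 : ℝ) 1) : a + ((t * u : ℝ) : ℂ) ∈ DD := by
  obtain ⟨h1, h2⟩ := ha
  obtain ⟨h3, h4⟩ := hau
  refine ⟨?_, ?_⟩
  · simp only [Complex.add_re, Complex.ofReal_re] at h3 ⊢
    rw [abs_lt] at h1 h3 ⊢
    obtain ⟨ht0, ht1⟩ := ht
    constructor
    · have : a.re + t * u = (1 - t) * a.re + t * (a.re + u) := by ring
      rw [this]
      rcases eq_or_lt_of_le ht0 with h | h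
      · subst h; simp; linarith [h1.1]
      · nlinarith [h1.1, h3.1]
    · have : a.re + t * u = (1 - t) * a.re + t * (a.re + u) := by ring
      rw [this]
      rcases eq_or_lt_of_le ht0 with h | h
      · subst h; simp; linarith [h1.2]
      · nlinarith [h1.2, h3.2]
  · simpa using h2

/-! ### The chain rule -/

theorem chain {f F1 F2 : ℂ → ℂ → ℂ} {p : ℂ × ℂ}
    (h1 : ∀ᶠ q : ℂ × ℂ in 𝓝 p, HasDerivAt (fun z => f z q.2) (F1 q.1 q.2) q.1)
    (h2 : ∀ᶠ q : ℂ × ℂ in 𝓝 p, HasDerivAt (fun z => f q.1 z) (F2 q.1 q.2) q.2)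
    (c1 : ContinuousAt (fun q : ℂ × ℂ => F1 q.1 q.2) p)
    (c2 : ContinuousAt (fun q : ℂ × ℂ => F2 q.1 q.2) p) :
    HasFDerivAt (fun q : ℂ × ℂ => f q.1 q.2)
      ((ContinuousLinearMap.toSpanSingleton ℂ (F1 p.1 p.2)).coprod
        (ContinuousLinearMap.toSpanSingleton ℂ (F2 p.1 p.2))) p := by
  have h := hasStrictFDerivAt_uncurry_coprod (𝕜 := ℂ) (u := p) (f := f)
    (f₁ := fun a b => ContinuousLinearMap.toSpanSingleton ℂ (F1 a b))
    (f₂ := fun a b => ContinuousLinearMap.toSpanSingleton ℂ (F2 a b))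
    (h1.mono fun q hq => hq.hasFDerivAt) (h2.mono fun q hq => hq.hasFDerivAt) ?_ ?_
  · exact h.hasFDerivAt
  · exact ((ContinuousLinearMap.toSpanSingletonCLE (𝕜 := ℂ) (E := ℂ)).continuous.continuousAt).comp c1
  · exact ((ContinuousLinearMap.toSpanSingletonCLE (𝕜 := ℂ) (E := ℂ)).continuous.continuousAt).comp c2

/-- two steps of the mean value theorem -/
theorem mvt2 {f g h : ℝ → ℝ} (hf : ∀ t ∈ Set.Icc (0:ℝ) 1, HasDerivAt f (g t) t)
    (hg : ∀ t ∈ Set.Icc (0:ℝ) 1, HasDerivAt g (h t) t) :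
    ∃ ξ ∈ Set.Ioo (0:ℝ) 1, ∃ η ∈ Set.Ioo (0:ℝ) ξ, f 1 = f 0 + g 0 + h η * ξ := by
  obtain ⟨ξ, hξ, h1⟩ := exists_hasDerivAt_eq_slope f g (by norm_num : (0:ℝ) < 1)
    (fun t ht => (hf t ht).continuousAt.continuousWithinAt) (fun t ht => hf t ⟨ht.1.le, ht.2.le⟩)
  obtain ⟨η, hη, h2⟩ := exists_hasDerivAt_eq_slope g h hξ.1
    (fun t ht => (hg t ⟨ht.1, ht.2.trans hξ.2.le⟩).continuousAt.continuousWithinAt)
    (fun t ht => hg t ⟨ht.1.le, (ht.2.trans hξ.2).le⟩)
  refine ⟨ξ, hξ, η, hη, ?_⟩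
  have h3 : (0:ℝ) < ξ := hξ.1
  rw [eq_div_iff (by linarith)] at h1 h2
  linarith

/-- convexity -/
theorem cvx {f g h : ℝ → ℝ} {T : ℝ} (hT : 0 < T)
    (hf : ∀ t ∈ Set.Icc 0 T, HasDerivAt f (g t) t)
    (hg : ∀ t ∈ Set.Icc 0 T, HasDerivAt g (h t) t) (hh : ∀ t ∈ Set.Icc 0 T, 0 ≤ h t)
    {y : ℝ} (hy : y ∈ Set.Icc 0 T) : f y ≤ (1 - y / T) * f 0 + y / T * f T := by
  have hc : ConvexOn ℝ (Set.Icc 0 T) f := by
    refine convexOn_of_hasDerivWithinAt2_nonneg (convex_Icc 0 T) (f' := g) (f'' := h)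
      (fun t ht => (hf t ht).continuousAt.continuousWithinAt) ?_ ?_ ?_
    · intro t ht
      exact (hf t (interior_subset ht)).hasDerivWithinAt
    · intro t ht
      exact (hg t (interior_subset ht)).hasDerivWithinAt
    · intro t ht
      exact hh t (interior_subset ht)
  have h1 : 0 ≤ y / T := div_nonneg hy.1 hT.le
  have h2 : y / T ≤ 1 := (div_le_one hT).2 hy.2
  have h3 := hc.2 (show (0 : ℝ) ∈ Set.Icc 0 T from ⟨le_rfl, hT.le⟩)
    (show T ∈ Set.Icc 0 T from ⟨hT.le, le_rfl⟩) (show 0 ≤ 1 - y / T by linarith) h1 (by ring)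
  simp only [smul_eq_mul, mul_zero, zero_add] at h3
  rwa [div_mul_cancel₀ _ hT.ne'] at h3

/-! ### The partial derivatives -/

theorem cos_half {ψ : ℂ} (h : ψ ∈ DD) : Complex.cos (ψ / 2) ≠ 0 := by
  intro h0
  have h1 := congrArg Complex.re h0
  rw [Complex.cos_eq] at h1
  have h2 : (ψ / 2).re = ψ.re / 2 := by simp
  have h3 : (ψ / 2).im = ψ.im / 2 := by simp
  rw [h2, h3] at h1
  simp only [← Complex.ofReal_cos, ← Complex.ofReal_sin, ← Complex.ofReal_cosh,
    ← Complex.ofReal_sinh, Complex.sub_re, Complex.mul_re, Complex.ofReal_re, Complex.ofReal_im,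
    Complex.I_re, Complex.I_im, Complex.zero_re, Complex.mul_im] at h1
  have h4 : 0 < Real.cos (ψ.re / 2) := by
    obtain ⟨h5, h6⟩ := abs_lt.1 h.1
    apply Real.cos_pos_of_mem_Ioo
    constructor <;> linarith [Real.pi_gt_three]
  have h5 : 0 < Real.cosh (ψ.im / 2) := Real.cosh_pos _
  have h6 := mul_pos h4 h5
  linarith

theorem slit {b : ℂ} (h : 0 < (b ^ (1 / 2 : ℂ)).re) : b ∈ Complex.slitPlane := by
  by_contra hb
  have hb0 : b ≠ 0 := by
    rintro rfl
    rw [Complex.zero_cpow (by norm_num)] at h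
    simp at h
  have h2 : (b ^ (1 / 2 : ℂ)) ^ 2 = b := by
    rw [← Complex.cpow_nat_mul]
    norm_num
  rw [Complex.mem_slitPlane_iff] at hb
  push Not at hb
  have h3 := congrArg Complex.re h2
  have h4 := congrArg Complex.im h2
  rw [hb.2] at h4
  simp only [sq, Complex.mul_re, Complex.mul_im] at h3 h4
  have h5 : (b ^ (1 / 2 : ℂ)).im = 0 := by
    have : (b ^ (1 / 2 : ℂ)).re * (b ^ (1 / 2 : ℂ)).im = 0 := by linarith
    rcases mul_eq_zero.1 this with h | h
    · linarith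
    · exact h
  rw [h5] at h3
  nlinarith [hb.1]

theorem rr_cont (hP : POT) {p : ℂ × ℂ} (h1 : p.1 ∈ DD) (h2 : p.2 ∈ DD) :
    ContinuousAt (fun q : ℂ × ℂ => rr q.1 q.2) p := by
  have h := slit (hP.rre p.1 h1 p.2 h2)
  unfold rr
  refine ContinuousAt.cpow ?_ continuousAt_const h
  fun_prop

theorem rr_ne (hP : POT) {ψ φ : ℂ} (h1 : ψ ∈ DD) (h2 : φ ∈ DD) : rr ψ φ ≠ 0 := by
  intro h
  have := hP.rre ψ h1 φ h2
  rw [h] at this
  simp at this

/-- the second derivatives -/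
noncomputable def F11 (ψ φ : ℂ) : ℂ :=
  -(1 / (2 * π)) * (Complex.cos (φ / 2) / (Complex.cos (ψ / 2) * rr ψ φ))

/-- the second derivatives -/
noncomputable def F12 (ψ φ : ℂ) : ℂ :=
  1 / (2 * π) * (Complex.sin (ψ / 2) * Complex.sin (φ / 2) / rr ψ φ)

/-- the second derivatives -/
noncomputable def F22 (ψ φ : ℂ) : ℂ :=
  -(1 / (2 * π)) * (Complex.cos (ψ / 2) / (Complex.cos (φ / 2) * rr ψ φ))

theorem F11_cont (hP : POT) {p : ℂ × ℂ} (h1 : p.1 ∈ DD) (h2 : p.2 ∈ DD) :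
    ContinuousAt (fun q : ℂ × ℂ => F11 q.1 q.2) p := by
  unfold F11
  refine ContinuousAt.mul continuousAt_const (ContinuousAt.div (by fun_prop)
    (ContinuousAt.mul (by fun_prop) (rr_cont hP h1 h2)) ?_)
  exact mul_ne_zero (cos_half h1) (rr_ne hP h1 h2)

theorem F22_cont (hP : POT) {p : ℂ × ℂ} (h1 : p.1 ∈ DD) (h2 : p.2 ∈ DD) :
    ContinuousAt (fun q : ℂ × ℂ => F22 q.1 q.2) p := by
  unfold F22
  refine ContinuousAt.mul continuousAt_const (ContinuousAt.div (by fun_prop)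
    (ContinuousAt.mul (by fun_prop) (rr_cont hP h1 h2)) ?_)
  exact mul_ne_zero (cos_half h2) (rr_ne hP h1 h2)

theorem F12_cont (hP : POT) {p : ℂ × ℂ} (h1 : p.1 ∈ DD) (h2 : p.2 ∈ DD) :
    ContinuousAt (fun q : ℂ × ℂ => F12 q.1 q.2) p := by
  unfold F12
  refine ContinuousAt.mul continuousAt_const (ContinuousAt.div (by fun_prop)
    (rr_cont hP h1 h2) (rr_ne hP h1 h2))

theorem s1_fd (hP : POT) {p : ℂ × ℂ} (h1 : p.1 ∈ DD) (h2 : p.2 ∈ DD) :
    HasFDerivAt (fun q : ℂ × ℂ => s1 q.1 q.2)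
      ((ContinuousLinearMap.toSpanSingleton ℂ (F11 p.1 p.2)).coprod
        (ContinuousLinearMap.toSpanSingleton ℂ (F12 p.1 p.2))) p := by
  refine chain ?_ ?_ (F11_cont hP h1 h2) (F12_cont hP h1 h2)
  · filter_upwards [DD_ev h1 h2] with q hq
    exact hP.d11 q.1 hq.1 q.2 hq.2
  · filter_upwards [DD_ev h1 h2] with q hq
    exact hP.d12 q.1 hq.1 q.2 hq.2

theorem s2_fd (hP : POT) {p : ℂ × ℂ} (h1 : p.1 ∈ DD) (h2 : p.2 ∈ DD) :
    HasFDerivAt (fun q : ℂ × ℂ => s2 q.1 q.2)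
      ((ContinuousLinearMap.toSpanSingleton ℂ (F12 p.1 p.2)).coprod
        (ContinuousLinearMap.toSpanSingleton ℂ (F22 p.1 p.2))) p := by
  refine chain ?_ ?_ (F12_cont hP h1 h2) (F22_cont hP h1 h2)
  · filter_upwards [DD_ev h1 h2] with q hq
    exact hP.d21 q.1 hq.1 q.2 hq.2
  · filter_upwards [DD_ev h1 h2] with q hq
    exact hP.d22 q.1 hq.1 q.2 hq.2

theorem sg_fd (hP : POT) {p : ℂ × ℂ} (h1 : p.1 ∈ DD) (h2 : p.2 ∈ DD) :
    HasFDerivAt (fun q : ℂ × ℂ => sg q.1 q.2)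
      ((ContinuousLinearMap.toSpanSingleton ℂ (s1 p.1 p.2)).coprod
        (ContinuousLinearMap.toSpanSingleton ℂ (s2 p.1 p.2))) p := by
  refine chain ?_ ?_ (s1_fd hP h1 h2).continuousAt (s2_fd hP h1 h2).continuousAt
  · filter_upwards [DD_ev h1 h2] with q hq
    exact (hP.d1 q.1 hq.1 q.2 hq.2).differentiableAt.hasDerivAt
  · filter_upwards [DD_ev h1 h2] with q hq
    exact (hP.d2 q.1 hq.1 q.2 hq.2).differentiableAt.hasDerivAt

/-- along a curve -/
theorem along {f : ℂ → ℂ → ℂ} {A B : ℂ} {a b : ℝ → ℂ} {a' b' : ℂ} {t : ℝ}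
    (h : HasFDerivAt (fun q : ℂ × ℂ => f q.1 q.2)
      ((ContinuousLinearMap.toSpanSingleton ℂ A).coprod
        (ContinuousLinearMap.toSpanSingleton ℂ B)) (a t, b t))
    (ha : HasDerivAt a a' t) (hb : HasDerivAt b b' t) :
    HasDerivAt (fun s => f (a s) (b s)) (A * a' + B * b') t := by
  have h1 := (h.restrictScalars ℝ).comp_hasDerivAt t (ha.prodMk hb)
  refine HasDerivAt.congr_deriv h1 ?_
  simp [mul_comm]

/-- the real part along a curve -/
theorem re_d {f : ℝ → ℂ} {f' : ℂ} {t : ℝ} (h : HasDerivAt f f' t) :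
    HasDerivAt (fun s => (f s).re) f'.re t := by
  exact Complex.reCLM.hasFDerivAt.comp_hasDerivAt t h

/-! ### Flat parts -/

theorem flat (hP : POT) (hH : HES) {a b : ℂ} (ha : a ∈ DD) (hb : b ∈ DD) {u v : ℝ}
    (hau : a + (u : ℂ) ∈ DD) (hbv : b + (v : ℂ) ∈ DD) :
    ∃ c : ℝ, 0 < c ∧ (sg (a + u) (b + v)).re ≤
      (sg a b).re + u * (s1 a b).re + v * (s2 a b).re - c * (u ^ 2 + v ^ 2) := by
  have hA : ∀ t : ℝ, HasDerivAt (fun t : ℝ => a + ((t * u : ℝ) : ℂ)) (u : ℂ) t := by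
    intro t
    have h1 : HasDerivAt (fun t : ℝ => t * u) u t := by
      simpa using (hasDerivAt_id t).mul_const u
    exact h1.ofReal_comp.const_add a
  have hB : ∀ t : ℝ, HasDerivAt (fun t : ℝ => b + ((t * v : ℝ) : ℂ)) (v : ℂ) t := by
    intro t
    have h1 : HasDerivAt (fun t : ℝ => t * v) v t := by
      simpa using (hasDerivAt_id t).mul_const v
    exact h1.ofReal_comp.const_add b
  obtain ⟨ξ, hξ, η, hη, h⟩ := mvt2
    (f := fun t : ℝ => (sg (a + ((t * u : ℝ) : ℂ)) (b + ((t * v : ℝ) : ℂ))).re)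
    (g := fun t : ℝ => (s1 (a + ((t * u : ℝ) : ℂ)) (b + ((t * v : ℝ) : ℂ)) * u +
      s2 (a + ((t * u : ℝ) : ℂ)) (b + ((t * v : ℝ) : ℂ)) * v).re)
    (h := fun t : ℝ => ((F11 (a + ((t * u : ℝ) : ℂ)) (b + ((t * v : ℝ) : ℂ)) * u +
      F12 (a + ((t * u : ℝ) : ℂ)) (b + ((t * v : ℝ) : ℂ)) * v) * u +
      (F12 (a + ((t * u : ℝ) : ℂ)) (b + ((t * v : ℝ) : ℂ)) * u +
      F22 (a + ((t * u : ℝ) : ℂ)) (b + ((t * v : ℝ) : ℂ)) * v) * v).re)
    (fun t ht => re_d (along (sg_fd hP (p := (a + ((t * u : ℝ) : ℂ), b + ((t * v : ℝ) : ℂ)))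
      (DD_seg ha hau ht) (DD_seg hb hbv ht)) (hA t) (hB t)))
    (fun t ht => re_d (((along (s1_fd hP (p := (a + ((t * u : ℝ) : ℂ), b + ((t * v : ℝ) : ℂ)))
      (DD_seg ha hau ht) (DD_seg hb hbv ht)) (hA t) (hB t)).mul_const (u : ℂ)).add
      ((along (s2_fd hP (p := (a + ((t * u : ℝ) : ℂ), b + ((t * v : ℝ) : ℂ)))
      (DD_seg ha hau ht) (DD_seg hb hbv ht)) (hA t) (hB t)).mul_const (v : ℂ))))
  have hη1 : η ∈ Set.Icc (0 : ℝ) 1 := ⟨hη.1.le, (hη.2.trans hξ.2).le⟩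
  have h1 := hH.hes _ (DD_seg ha hau hη1) _ (DD_seg hb hbv hη1) u v
  set ψ := a + ((η * u : ℝ) : ℂ) with hψ
  set φ := b + ((η * v : ℝ) : ℂ) with hφ
  have hpi : (0 : ℝ) < 1 / (2 * π) := by positivity
  have h2 : ((F11 ψ φ * u + F12 ψ φ * v) * u + (F12 ψ φ * u + F22 ψ φ * v) * v).re =
      -(1 / (2 * π)) * ((Complex.cos (φ / 2) / (Complex.cos (ψ / 2) * rr ψ φ)).re * u ^ 2 -
    2 * (Complex.sin (ψ / 2) * Complex.sin (φ / 2) / rr ψ φ).re * u * v +
    (Complex.cos (ψ / 2) / (Complex.cos (φ / 2) * rr ψ φ)).re * v ^ 2) := by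
    have e11 : (F11 ψ φ).re =
        -(1 / (2 * π)) * (Complex.cos (φ / 2) / (Complex.cos (ψ / 2) * rr ψ φ)).re := by
      have : (-(1 / (2 * π)) : ℂ) = ((-(1 / (2 * π)) : ℝ) : ℂ) := by push_cast; ring
      rw [F11, this, Complex.re_ofReal_mul]
    have e12 : (F12 ψ φ).re =
        1 / (2 * π) * (Complex.sin (ψ / 2) * Complex.sin (φ / 2) / rr ψ φ).re := by
      have : (1 / (2 * π) : ℂ) = ((1 / (2 * π) : ℝ) : ℂ) := by push_cast; ring
      rw [F12, this, Complex.re_ofReal_mul]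
    have e22 : (F22 ψ φ).re =
        -(1 / (2 * π)) * (Complex.cos (ψ / 2) / (Complex.cos (φ / 2) * rr ψ φ)).re := by
      have : (-(1 / (2 * π)) : ℂ) = ((-(1 / (2 * π)) : ℝ) : ℂ) := by push_cast; ring
      rw [F22, this, Complex.re_ofReal_mul]
    simp only [Complex.add_re, Complex.re_mul_ofReal, e11, e12, e22]
    ring
  rw [h2] at h
  refine ⟨1 / (2 * π) * (3 / 5) * ξ, mul_pos (mul_pos hpi (by norm_num)) hξ.1, ?_⟩
  have h3 : (sg (a + u) (b + v)).re = (sg (a + ((1 * u : ℝ) : ℂ)) (b + ((1 * v : ℝ) : ℂ))).re := by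
    simp
  rw [h3, h]
  have h4 : (s1 (a + ((0 * u : ℝ) : ℂ)) (b + ((0 * v : ℝ) : ℂ)) * u +
      s2 (a + ((0 * u : ℝ) : ℂ)) (b + ((0 * v : ℝ) : ℂ)) * v).re =
      u * (s1 a b).re + v * (s2 a b).re := by
    simp only [zero_mul, Complex.ofReal_zero, add_zero, Complex.add_re, Complex.re_mul_ofReal]
    ring
  have h5 : (sg (a + ((0 * u : ℝ) : ℂ)) (b + ((0 * v : ℝ) : ℂ))).re = (sg a b).re := by
    simp
  rw [h4, h5]
  have h6 := mul_le_mul_of_nonneg_left h1 (mul_pos hpi hξ.1).le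
  nlinarith [h6]

/-! ### Vertical parts -/

theorem vert (hP : POT) (hH : HES) {s : ℝ} {T : ℝ} (hs : |s| ≤ 1) (hT : 0 < T)
    (hT1 : T ≤ 23 / 100) {φ : ℂ} (hφ : φ ∈ DD) {y : ℝ} (hy : y ∈ Set.Icc 0 T) :
    (sg (s + y * Complex.I) φ).re ≤ (1 - y / T) * (sg (s + (0 : ℝ) * Complex.I) φ).re +
      y / T * (sg (s + T * Complex.I) φ).re := by
  have hA : ∀ t : ℝ, HasDerivAt (fun t : ℝ => (s : ℂ) + t * Complex.I) Complex.I t := by
    intro t
    have h1 := (hasDerivAt_id t).ofReal_comp.mul_const Complex.I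
    have h2 := h1.const_add (s : ℂ)
    simpa using h2
  have hB : ∀ t : ℝ, HasDerivAt (fun _ : ℝ => φ) 0 t := fun t => hasDerivAt_const t φ
  have hD : ∀ t ∈ Set.Icc 0 T, (s : ℂ) + t * Complex.I ∈ DD := by
    intro t ht
    refine ⟨?_, ?_⟩
    · simp only [Complex.add_re, Complex.ofReal_re, Complex.mul_re, Complex.I_re, mul_zero,
        Complex.ofReal_im, zero_mul, sub_zero, add_zero]
      linarith
    · simp only [Complex.add_im, Complex.ofReal_im, Complex.mul_im, Complex.ofReal_re,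
        Complex.I_im, mul_one, Complex.I_re, mul_zero, add_zero, zero_add]
      rw [abs_of_nonneg ht.1]
      linarith [ht.2]
  refine cvx (f := fun t : ℝ => (sg ((s : ℂ) + t * Complex.I) φ).re)
    (g := fun t : ℝ => (s1 (s + t * Complex.I) φ * Complex.I + s2 (s + t * Complex.I) φ * 0).re)
    (h := fun t : ℝ => ((F11 (s + t * Complex.I) φ * Complex.I + F12 (s + t * Complex.I) φ * 0) *
      Complex.I + (F12 (s + t * Complex.I) φ * Complex.I +
      F22 (s + t * Complex.I) φ * 0) * 0).re) hT ?_ ?_ ?_ hy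
  · intro t ht
    exact re_d (along (sg_fd hP (p := (s + t * Complex.I, φ)) (hD t ht) hφ) (hA t) (hB t))
  · intro t ht
    exact re_d (((along (s1_fd hP (p := (s + t * Complex.I, φ)) (hD t ht) hφ)
      (hA t) (hB t)).mul_const Complex.I).add
      ((along (s2_fd hP (p := (s + t * Complex.I, φ)) (hD t ht) hφ) (hA t) (hB t)).mul_const 0))
  · intro t ht
    have h1 := hH.hes _ (hD t ht) _ hφ 1 0
    have e11 : (F11 (s + t * Complex.I) φ).re = -(1 / (2 * π)) * (Complex.cos (φ / 2) /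
        (Complex.cos ((s + t * Complex.I) / 2) * rr (s + t * Complex.I) φ)).re := by
      have : (-(1 / (2 * π)) : ℂ) = ((-(1 / (2 * π)) : ℝ) : ℂ) := by push_cast; ring
      rw [F11, this, Complex.re_ofReal_mul]
    have e : (F11 (s + t * Complex.I) φ * Complex.I + F12 (s + t * Complex.I) φ * 0) *
      Complex.I + (F12 (s + t * Complex.I) φ * Complex.I +
      F22 (s + t * Complex.I) φ * 0) * 0 = -F11 (s + t * Complex.I) φ := by
      have := Complex.I_mul_I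
      linear_combination F11 (s + t * Complex.I) φ * this
    simp only [e, Complex.neg_re, e11]
    have hpi : (0 : ℝ) < 1 / (2 * π) := by positivity
    have h2 : 0 ≤ (Complex.cos (φ / 2) /
        (Complex.cos ((s + t * Complex.I) / 2) * rr (s + t * Complex.I) φ)).re := by
      linarith
    have := mul_nonneg hpi.le h2
    linarith

/-! ### The inequality -/

theorem D0_DD {z : ℂ} (h : z ∈ D0) : z ∈ DD := by
  obtain ⟨h1, h2, h3⟩ := h
  refine ⟨?_, ?_⟩
  · have := Complex.abs_re_le_norm z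
    linarith
  · rcases h3 with h3 | h3
    · subst h3; norm_num
    · rw [abs_of_pos h3]; linarith

theorem D0_im {z : ℂ} (h : z ∈ D0) : 0 ≤ z.im ∧ z.im ≤ 23 / 100 := by
  obtain ⟨h1, h2, h3⟩ := h
  refine ⟨?_, h2⟩
  rcases h3 with h3 | h3
  · subst h3; norm_num
  · exact h3.le

theorem D0_re {z : ℂ} (h : z ∈ D0) : |z.re| ≤ 21 / 50 :=
  (Complex.abs_re_le_norm z).trans h.1

theorem D0_zero {z : ℂ} (h : z ∈ D0) (h0 : z.im = 0) : z = 0 := by
  rcases h.2.2 with h1 | h1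
  · exact h1
  · linarith

theorem PP_DD {z w : ℂ} (h : z ∈ D0) (hw : w ∈ PP z) : w ∈ DD := by
  have h1 := D0_im h
  rcases hw with ⟨h2, h3⟩ | ⟨h2, h3, h4⟩
  · refine ⟨by linarith, ?_⟩
    rw [h3, abs_of_nonneg h1.1]
    linarith
  · refine ⟨by linarith, ?_⟩
    rw [abs_of_nonneg h3]
    linarith

theorem s1_zero (hP : POT) (φ : ℂ) : s1 0 φ = 0 := by
  have h : (fun w : ℂ => sg w φ) = fun w => sg (-w) φ := by
    funext w
    exact (hP.ev w φ).symm
  have h1 : deriv (fun w : ℂ => sg (-w) φ) 0 = -deriv (fun w : ℂ => sg w φ) (-0) :=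
    deriv_comp_neg (fun w : ℂ => sg w φ) 0
  rw [← h, neg_zero] at h1
  have h2 : (2 : ℂ) * deriv (fun w : ℂ => sg w φ) 0 = 0 := by linear_combination h1
  unfold s1
  simpa using h2

theorem s2_sym (hP : POT) (ψ φ : ℂ) : s2 ψ φ = s1 φ ψ := by
  unfold s1 s2
  congr 1
  funext w
  exact hP.sym ψ w

theorem tg_flat {z G w : ℂ} (h0 : z.im = 0 → G = 0) (hw : w.im = z.im) :
    tg z G w = (w.re - z.re) * G.re := by
  unfold tg
  rw [hw]
  by_cases h : z.im = 0
  · rw [h0 h]; simp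
  · rw [div_self h]; ring

theorem tg_end {z G w : ℂ} (hw : w.im = 0) : tg z G w = z.im * G.im := by
  unfold tg
  rw [hw]; simp

/-- the tangent plane is affine on the vertical parts -/
theorem tg_vert {z G : ℂ} (hz : 0 < z.im) (s y : ℝ) :
    tg z G (s + y * Complex.I) = (1 - y / z.im) * tg z G (s + (0 : ℝ) * Complex.I) +
      y / z.im * tg z G (s + z.im * Complex.I) := by
  unfold tg
  simp only [Complex.add_re, Complex.add_im, Complex.mul_re, Complex.mul_im, Complex.ofReal_re,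
    Complex.ofReal_im, Complex.I_re, Complex.I_im]
  field_simp
  ring

/-- the slack -/
noncomputable def SL (z z' w w' : ℂ) : ℝ :=
  (sg z z').re + tg z (s1 z z') w + tg z' (s2 z z') w' - (sg w w').re

theorem SL_sym (hP : POT) (z z' w w' : ℂ) : SL z z' w w' = SL z' z w' w := by
  unfold SL
  rw [s2_sym hP z z', s2_sym hP z' z, hP.sym z z', hP.sym w w']
  ring

/-- concavity of the slack on the vertical parts -/
theorem SL_vert (hP : POT) (hH : HES) {z z' w φ : ℂ} (hz : z ∈ D0) (hz0 : 0 < z.im)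
    (hφ : φ ∈ DD) (hw : |w.re| = 1) (hw0 : 0 ≤ w.im) (hw1 : w.im ≤ z.im) :
    (1 - w.im / z.im) * SL z z' (w.re + (0 : ℝ) * Complex.I) φ +
      w.im / z.im * SL z z' (w.re + z.im * Complex.I) φ ≤ SL z z' w φ := by
  have h1 := vert hP hH (s := w.re) (T := z.im) hw.le hz0 (D0_im hz).2 hφ (y := w.im) ⟨hw0, hw1⟩
  have h2 := tg_vert (z := z) (G := s1 z z') hz0 w.re w.im
  rw [Complex.re_add_im] at h1 h2
  unfold SL
  rw [h2]
  linarith

theorem cvx_lt {l a b : ℝ} (h0 : 0 ≤ l) (h1 : l ≤ 1) (ha : 0 < a) (hb : 0 < b) :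
    0 < (1 - l) * a + l * b := by
  rcases eq_or_lt_of_le h0 with h | h
  · subst h; linarith
  · have := mul_pos h hb
    have := mul_nonneg (sub_nonneg.2 h1) ha.le
    linarith

theorem cvx_le {l a b c : ℝ} (h0 : 0 ≤ l) (h1 : l ≤ 1) (ha : c ≤ a) (hb : c ≤ b) :
    c ≤ (1 - l) * a + l * b := by
  have := mul_le_mul_of_nonneg_left hb h0
  have := mul_le_mul_of_nonneg_left ha (sub_nonneg.2 h1)
  linarith

theorem co_mk {s : ℝ} (hs : |s| = 1) : CO (s + (0 : ℝ) * Complex.I) := by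
  refine ⟨?_, ?_⟩
  · simpa using hs
  · simp

theorem top_mk {s T : ℝ} : ((s : ℂ) + T * Complex.I).im = T ∧ ((s : ℂ) + T * Complex.I).re = s := by
  constructor <;> simp

theorem top_ne {z : ℂ} (hz : z ∈ D0) {s T : ℝ} (hs : |s| = 1) : (s : ℂ) + T * Complex.I ≠ z := by
  intro h
  have h1 := D0_re hz
  rw [← h, top_mk.2, hs] at h1
  norm_num at h1

/-- step 1: `w` is an end -/
theorem step1 (hP : POT) (hH : HES) (hC : COR) {z z' w w' : ℂ} (hz : z ∈ D0) (hz' : z' ∈ D0)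
    (hw : CO w) (hw' : w' ∈ PP z') : 1 / 50 ≤ SL z z' w w' := by
  have hwD : w ∈ DD := by
    refine ⟨?_, ?_⟩
    · rw [hw.1]; norm_num
    · rw [hw.2]; norm_num
  have hfl : ∀ v : ℂ, |v.re| ≤ 1 → v.im = z'.im → 1 / 50 ≤ SL z z' w v := by
    intro v h1 h2
    have h := hC.c2 z hz z' hz' w v hw h1 h2
    unfold SL
    rw [tg_end hw.2, tg_flat (z := z') (w := v) _ h2]
    · linarith
    · intro h0
      rw [D0_zero hz' h0, s2_sym hP, s1_zero hP]
  rcases hw' with ⟨h1, h2⟩ | ⟨h1, h2, h3⟩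
  · exact hfl w' h1 h2
  · rcases eq_or_lt_of_le (D0_im hz').1 with h0 | h0
    · exact hfl w' h1.le (by linarith)
    · rw [SL_sym hP]
      refine le_trans ?_ (SL_vert hP hH hz' h0 hwD h1 h2 h3)
      refine cvx_le (div_nonneg h2 h0.le) ((div_le_one h0).2 h3) ?_ ?_
      · rw [SL_sym hP]
        have h := hC.c3 z hz z' hz' w _ hw (co_mk h1)
        unfold SL
        rw [tg_end hw.2, tg_end (co_mk h1).2]
        linarith
      · rw [SL_sym hP]
        refine hfl _ ?_ top_mk.1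
        rw [top_mk.2, h1]

/-- step 2: both on the flat parts -/
theorem step2 (hP : POT) (hH : HES) {z z' w w' : ℂ} (hz : z ∈ D0) (hz' : z' ∈ D0)
    (h1 : |w.re| ≤ 1) (h2 : w.im = z.im) (h1' : |w'.re| ≤ 1) (h2' : w'.im = z'.im)
    (hne : w ≠ z ∨ w' ≠ z') : 0 < SL z z' w w' := by
  have hw : w = z + ((w.re - z.re : ℝ) : ℂ) := by
    apply Complex.ext <;> simp [h2]
  have hw' : w' = z' + ((w'.re - z'.re : ℝ) : ℂ) := by
    apply Complex.ext <;> simp [h2']
  have hD : w ∈ DD := PP_DD hz (Or.inl ⟨h1, h2⟩)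
  have hD' : w' ∈ DD := PP_DD hz' (Or.inl ⟨h1', h2'⟩)
  obtain ⟨c, hc, h⟩ := flat hP hH (D0_DD hz) (D0_DD hz') (u := w.re - z.re) (v := w'.re - z'.re)
    (by rwa [← hw]) (by rwa [← hw'])
  rw [← hw, ← hw'] at h
  unfold SL
  rw [tg_flat (z := z) (w := w) _ h2, tg_flat (z := z') (w := w') _ h2']
  · have h3 : 0 < (w.re - z.re) ^ 2 + (w'.re - z'.re) ^ 2 := by
      rcases hne with hne | hne
      · have : w.re - z.re ≠ 0 := by
          intro h0
          rw [h0] at hw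
          apply hne
          rw [hw]; simp
        positivity
      · have : w'.re - z'.re ≠ 0 := by
          intro h0
          rw [h0] at hw'
          apply hne
          rw [hw']; simp
        positivity
    have := mul_pos hc h3
    linarith
  · intro h0
    rw [D0_zero hz' h0, s2_sym hP, s1_zero hP]
  · intro h0
    rw [D0_zero hz h0, s1_zero hP]

/-- step 3: `w` on the flat part -/
theorem step3 (hP : POT) (hH : HES) (hC : COR) {z z' w w' : ℂ} (hz : z ∈ D0) (hz' : z' ∈ D0)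
    (h1 : |w.re| ≤ 1) (h2 : w.im = z.im) (hw' : w' ∈ PP z') (hne : w ≠ z ∨ w' ≠ z') :
    0 < SL z z' w w' := by
  rcases hw' with ⟨h3, h4⟩ | ⟨h3, h4, h5⟩
  · exact step2 hP hH hz hz' h1 h2 h3 h4 hne
  · rcases eq_or_lt_of_le (D0_im hz').1 with h0 | h0
    · exact step2 hP hH hz hz' h1 h2 h3.le (by linarith) hne
    · rw [SL_sym hP]
      refine lt_of_lt_of_le ?_ (SL_vert hP hH hz' h0 (PP_DD hz (Or.inl ⟨h1, h2⟩)) h3 h4 h5)
      refine cvx_lt (div_nonneg h4 h0.le) ((div_le_one h0).2 h5) ?_ ?_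
      · have := step1 hP hH hC hz' hz (co_mk h3) (Or.inl ⟨h1, h2⟩ : w ∈ PP z)
        linarith
      · rw [SL_sym hP]
        refine step2 hP hH hz hz' h1 h2 ?_ top_mk.1 (Or.inr (top_ne hz' h3))
        rw [top_mk.2, h3]

/-- step 4 -/
theorem step4 (hP : POT) (hH : HES) (hC : COR) {z z' w w' : ℂ} (hz : z ∈ D0) (hz' : z' ∈ D0)
    (hw : w ∈ PP z) (hw' : w' ∈ PP z') (hne : w ≠ z ∨ w' ≠ z') : 0 < SL z z' w w' := by
  rcases hw with ⟨h3, h4⟩ | ⟨h3, h4, h5⟩
  · exact step3 hP hH hC hz hz' h3 h4 hw' hne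
  · rcases eq_or_lt_of_le (D0_im hz).1 with h0 | h0
    · exact step3 hP hH hC hz hz' h3.le (by linarith) hw' hne
    · refine lt_of_lt_of_le ?_ (SL_vert hP hH hz h0 (PP_DD hz' hw') h3 h4 h5)
      refine cvx_lt (div_nonneg h4 h0.le) ((div_le_one h0).2 h5) ?_ ?_
      · have := step1 hP hH hC hz hz' (co_mk h3) hw'
        linarith
      · refine step3 hP hH hC hz hz' ?_ top_mk.1 hw' (Or.inl (top_ne hz h3))
        rw [top_mk.2, h3]

theorem tg_self (z G : ℂ) : tg z G z = 0 := by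
  unfold tg; simp

/-! ### One variable -/

/-- the slack in one variable -/
noncomputable def SM (z ψ w : ℂ) : ℝ := (sg z ψ).re + tg z (s1 z ψ) w - (sg w ψ).re

theorem SM_end (hC : COR) {z ψ w : ℂ} (hz : z ∈ D0) (hψ : ψ ∈ DD) (hw : CO w) :
    1 / 50 ≤ SM z ψ w := by
  have h := hC.c1 z hz ψ hψ w hw
  unfold SM
  rw [tg_end hw.2]
  linarith

theorem SM_flat (hP : POT) (hH : HES) {z ψ w : ℂ} (hz : z ∈ D0) (hψ : ψ ∈ DD)
    (h1 : |w.re| ≤ 1) (h2 : w.im = z.im) (hne : w ≠ z) : 0 < SM z ψ w := by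
  have hw : w = z + ((w.re - z.re : ℝ) : ℂ) := by
    apply Complex.ext <;> simp [h2]
  have hD : w ∈ DD := PP_DD hz (Or.inl ⟨h1, h2⟩)
  obtain ⟨c, hc, h⟩ := flat hP hH (D0_DD hz) hψ (u := w.re - z.re) (v := 0)
    (by rwa [← hw]) (by simpa using hψ)
  rw [← hw] at h
  simp only [Complex.ofReal_zero, add_zero, zero_mul] at h
  unfold SM
  rw [tg_flat (z := z) (w := w) _ h2]
  · have h3 : 0 < (w.re - z.re) ^ 2 + 0 ^ 2 := by
      have : w.re - z.re ≠ 0 := by
        intro h0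
        rw [h0] at hw
        apply hne
        rw [hw]; simp
      positivity
    have := mul_pos hc h3
    linarith
  · intro h0
    rw [D0_zero hz h0, s1_zero hP]

theorem SM_pos (hP : POT) (hH : HES) (hC : COR) {z ψ w : ℂ} (hz : z ∈ D0) (hψ : ψ ∈ DD)
    (hw : w ∈ PP z) (hne : w ≠ z) : 0 < SM z ψ w := by
  rcases hw with ⟨h3, h4⟩ | ⟨h3, h4, h5⟩
  · exact SM_flat hP hH hz hψ h3 h4 hne
  · rcases eq_or_lt_of_le (D0_im hz).1 with h0 | h0
    · exact SM_flat hP hH hz hψ h3.le (by linarith) hne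
    · have h6 := vert hP hH (s := w.re) (T := z.im) h3.le h0 (D0_im hz).2 hψ (y := w.im) ⟨h4, h5⟩
      have h7 := tg_vert (z := z) (G := s1 z ψ) h0 w.re w.im
      rw [Complex.re_add_im] at h6 h7
      have h8 : (1 - w.im / z.im) * SM z ψ (w.re + (0 : ℝ) * Complex.I) +
          w.im / z.im * SM z ψ (w.re + z.im * Complex.I) ≤ SM z ψ w := by
        unfold SM
        rw [h7]
        linarith
      refine lt_of_lt_of_le ?_ h8
      refine cvx_lt (div_nonneg h4 h0.le) ((div_le_one h0).2 h5) ?_ ?_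
      · have := SM_end hC hz hψ (co_mk h3)
        linarith
      · refine SM_flat hP hH hz hψ ?_ top_mk.1 (top_ne hz h3)
        rw [top_mk.2, h3]

theorem edg : S_EDG := by
  intro hP hH hC
  refine ⟨?_, ?_⟩
  · intro z hz z' hz' w hw w' hw'
    refine ⟨?_, ?_, ?_⟩
    · by_cases h : w ≠ z ∨ w' ≠ z'
      · have := step4 hP hH hC hz hz' hw hw' h
        unfold SL at this
        linarith
      · push Not at h
        rw [h.1, h.2, tg_self, tg_self]
        simp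
    · intro h
      have := step4 hP hH hC hz hz' hw hw' h
      unfold SL at this
      linarith
    · rintro (h | h)
      · have := step1 hP hH hC hz hz' h hw'
        unfold SL at this
        linarith
      · have := step1 hP hH hC hz' hz h hw
        rw [SL_sym hP] at this
        unfold SL at this
        linarith
  · intro z hz ψ hψ w hw
    refine ⟨?_, ?_, ?_⟩
    · by_cases h : w = z
      · rw [h, tg_self]; simp
      · have := SM_pos hP hH hC hz hψ hw h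
        unfold SM at this
        linarith
    · intro h
      have := SM_pos hP hH hC hz hψ hw h
      unfold SM at this
      linarith
    · intro h
      have := SM_end hC hz hψ h
      unfold SM at this
      linarith

end Pool.Agent.N27.EK.Edg
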